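import Mathlib

set_option autoImplicit false

/-!
`b_11(n)` is never divisible by `32`: modulo `32` the series `B(x)^11 / (1-x)^15` equals
`prod_i Q(x^(2^i))` with a quartic `Q`, so windows of `16` consecutive coefficients follow a finite
automaton with `300` states.
-/

namespace Pool.Agent.H339Z.BinPart

open Polynomial

abbrev R := ZMod 32

def D (w : List ℕ) (v : ℕ) : ℕ := if v % 2 = 0 then w.getD (v / 2) 0 else 0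

def T (e : ℕ) (w : List ℕ) : List ℕ :=
  (List.range 16).map (fun j => (D w (e + j + 15) + 26 * D w (e + j + 14) + 16 * D w (e + j + 13)
    + 6 * D w (e + j + 12) + 31 * D w (e + j + 11)) % 32)

def dif (w : List ℕ) : List ℕ :=
  (List.range 16).map (fun j => (w.getD (j + 1) 0 + 31 * w.getD j 0) % 32)

def difN : ℕ → List ℕ → List ℕ
  | 0, w => w
  | k + 1, w => dif (difN k w)

def S : List (List ℕ) :=
  [[0,0,0,0,0,0,0,0,0,0,0,0,0,0,0,1],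
  [0,0,0,0,0,0,0,0,0,0,0,0,0,0,1,26],
  [0,0,0,0,0,0,0,0,0,0,0,0,0,1,26,10],
  [0,0,0,0,0,0,0,0,0,0,0,0,1,26,10,10],
  [0,0,0,0,0,0,0,0,0,0,0,1,26,10,10,9],
  [0,0,0,0,0,0,0,0,0,0,1,26,10,10,9,0],
  [0,0,0,0,0,0,0,0,0,1,26,10,10,9,0,16],
  [0,0,0,0,0,0,0,0,1,26,10,10,9,0,16,0],
  [0,0,0,0,0,0,0,1,26,10,10,9,0,16,0,31],
  [0,0,0,0,0,0,1,26,10,10,9,0,16,0,31,6],
  [0,0,0,0,0,1,26,10,10,9,0,16,0,31,6,6],
  [0,0,0,0,1,26,10,10,9,0,16,0,31,6,6,22],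
  [0,0,0,1,26,10,10,9,0,16,0,31,6,6,22,7],
  [0,0,1,26,10,10,9,0,16,0,31,6,6,22,7,0],
  [0,1,26,10,10,9,0,16,0,31,6,6,22,7,0,0],
  [1,26,10,10,9,0,16,0,31,6,6,22,7,0,0,0],
  [26,10,10,9,0,16,0,31,6,6,22,7,0,0,0,15],
  [10,10,9,0,16,0,31,6,6,22,7,0,0,0,15,6],
  [10,9,0,16,0,31,6,6,22,7,0,0,0,15,6,22],
  [9,0,16,0,31,6,6,22,7,0,0,0,15,6,22,22],
  [0,16,0,31,6,6,22,7,0,0,0,15,6,22,22,7],
  [16,0,31,6,6,22,7,0,0,0,15,6,22,22,7,0],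
  [0,31,6,6,22,7,0,0,0,15,6,22,22,7,0,16],
  [31,6,6,22,7,0,0,0,15,6,22,22,7,0,16,0],
  [6,6,22,7,0,0,0,15,6,22,22,7,0,16,0,1],
  [6,22,7,0,0,0,15,6,22,22,7,0,16,0,1,26],
  [22,7,0,0,0,15,6,22,22,7,0,16,0,1,26,26],
  [7,0,0,0,15,6,22,22,7,0,16,0,1,26,26,10],
  [0,0,0,15,6,22,22,7,0,16,0,1,26,26,10,25],
  [0,0,15,6,22,22,7,0,16,0,1,26,26,10,25,0],
  [0,15,6,22,22,7,0,16,0,1,26,26,10,25,0,0],
  [15,6,22,22,7,0,16,0,1,26,26,10,25,0,0,0],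
  [6,22,22,7,0,16,0,1,26,26,10,25,0,0,0,15],
  [22,22,7,0,16,0,1,26,26,10,25,0,0,0,15,6],
  [22,7,0,16,0,1,26,26,10,25,0,0,0,15,6,22],
  [7,0,16,0,1,26,26,10,25,0,0,0,15,6,22,22],
  [0,16,0,1,26,26,10,25,0,0,0,15,6,22,22,7],
  [16,0,1,26,26,10,25,0,0,0,15,6,22,22,7,0],
  [0,1,26,26,10,25,0,0,0,15,6,22,22,7,0,16],
  [1,26,26,10,25,0,0,0,15,6,22,22,7,0,16,0],
  [26,26,10,25,0,0,0,15,6,22,22,7,0,16,0,17],
  [26,10,25,0,0,0,15,6,22,22,7,0,16,0,17,26],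
  [10,25,0,0,0,15,6,22,22,7,0,16,0,17,26,26],
  [25,0,0,0,15,6,22,22,7,0,16,0,17,26,26,10],
  [0,0,0,15,6,22,22,7,0,16,0,17,26,26,10,9],
  [0,0,15,6,22,22,7,0,16,0,17,26,26,10,9,0],
  [0,15,6,22,22,7,0,16,0,17,26,26,10,9,0,0],
  [15,6,22,22,7,0,16,0,17,26,26,10,9,0,0,0],
  [6,22,22,7,0,16,0,17,26,26,10,9,0,0,0,17],
  [22,22,7,0,16,0,17,26,26,10,9,0,0,0,17,26],
  [22,7,0,16,0,17,26,26,10,9,0,0,0,17,26,10],
  [7,0,16,0,17,26,26,10,9,0,0,0,17,26,10,10],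
  [0,16,0,17,26,26,10,9,0,0,0,17,26,10,10,25],
  [16,0,17,26,26,10,9,0,0,0,17,26,10,10,25,0],
  [0,17,26,26,10,9,0,0,0,17,26,10,10,25,0,16],
  [17,26,26,10,9,0,0,0,17,26,10,10,25,0,16,0],
  [26,26,10,9,0,0,0,17,26,10,10,25,0,16,0,31],
  [26,10,9,0,0,0,17,26,10,10,25,0,16,0,31,6],
  [10,9,0,0,0,17,26,10,10,25,0,16,0,31,6,6],
  [9,0,0,0,17,26,10,10,25,0,16,0,31,6,6,22],
  [0,0,0,17,26,10,10,25,0,16,0,31,6,6,22,7],
  [0,0,17,26,10,10,25,0,16,0,31,6,6,22,7,0],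
  [0,17,26,10,10,25,0,16,0,31,6,6,22,7,0,0],
  [17,26,10,10,25,0,16,0,31,6,6,22,7,0,0,0],
  [26,10,10,25,0,16,0,31,6,6,22,7,0,0,0,15],
  [10,10,25,0,16,0,31,6,6,22,7,0,0,0,15,6],
  [10,25,0,16,0,31,6,6,22,7,0,0,0,15,6,22],
  [25,0,16,0,31,6,6,22,7,0,0,0,15,6,22,22],
  [6,6,22,7,0,0,0,15,6,22,22,7,0,16,0,17],
  [6,22,7,0,0,0,15,6,22,22,7,0,16,0,17,26],
  [22,7,0,0,0,15,6,22,22,7,0,16,0,17,26,26],
  [7,0,0,0,15,6,22,22,7,0,16,0,17,26,26,10],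
  [6,22,22,7,0,16,0,17,26,26,10,9,0,0,0,1],
  [22,22,7,0,16,0,17,26,26,10,9,0,0,0,1,26],
  [22,7,0,16,0,17,26,26,10,9,0,0,0,1,26,10],
  [7,0,16,0,17,26,26,10,9,0,0,0,1,26,10,10],
  [0,16,0,17,26,26,10,9,0,0,0,1,26,10,10,9],
  [16,0,17,26,26,10,9,0,0,0,1,26,10,10,9,0],
  [0,17,26,26,10,9,0,0,0,1,26,10,10,9,0,16],
  [17,26,26,10,9,0,0,0,1,26,10,10,9,0,16,0],
  [26,26,10,9,0,0,0,1,26,10,10,9,0,16,0,15],
  [26,10,9,0,0,0,1,26,10,10,9,0,16,0,15,6],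
  [10,9,0,0,0,1,26,10,10,9,0,16,0,15,6,6],
  [9,0,0,0,1,26,10,10,9,0,16,0,15,6,6,22],
  [0,0,0,1,26,10,10,9,0,16,0,15,6,6,22,23],
  [0,0,1,26,10,10,9,0,16,0,15,6,6,22,23,0],
  [0,1,26,10,10,9,0,16,0,15,6,6,22,23,0,0],
  [1,26,10,10,9,0,16,0,15,6,6,22,23,0,0,0],
  [26,10,10,9,0,16,0,15,6,6,22,23,0,0,0,17],
  [10,10,9,0,16,0,15,6,6,22,23,0,0,0,17,26],
  [10,9,0,16,0,15,6,6,22,23,0,0,0,17,26,10],
  [9,0,16,0,15,6,6,22,23,0,0,0,17,26,10,10],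
  [0,16,0,15,6,6,22,23,0,0,0,17,26,10,10,25],
  [16,0,15,6,6,22,23,0,0,0,17,26,10,10,25,0],
  [0,15,6,6,22,23,0,0,0,17,26,10,10,25,0,16],
  [15,6,6,22,23,0,0,0,17,26,10,10,25,0,16,0],
  [6,6,22,23,0,0,0,17,26,10,10,25,0,16,0,15],
  [6,22,23,0,0,0,17,26,10,10,25,0,16,0,15,6],
  [22,23,0,0,0,17,26,10,10,25,0,16,0,15,6,6],
  [23,0,0,0,17,26,10,10,25,0,16,0,15,6,6,22],
  [0,0,0,17,26,10,10,25,0,16,0,15,6,6,22,23],
  [0,0,17,26,10,10,25,0,16,0,15,6,6,22,23,0],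
  [0,17,26,10,10,25,0,16,0,15,6,6,22,23,0,0],
  [17,26,10,10,25,0,16,0,15,6,6,22,23,0,0,0],
  [26,10,10,25,0,16,0,15,6,6,22,23,0,0,0,15],
  [10,10,25,0,16,0,15,6,6,22,23,0,0,0,15,6],
  [10,25,0,16,0,15,6,6,22,23,0,0,0,15,6,22],
  [25,0,16,0,15,6,6,22,23,0,0,0,15,6,22,22],
  [0,16,0,15,6,6,22,23,0,0,0,15,6,22,22,7],
  [16,0,15,6,6,22,23,0,0,0,15,6,22,22,7,0],
  [0,15,6,6,22,23,0,0,0,15,6,22,22,7,0,16],
  [15,6,6,22,23,0,0,0,15,6,22,22,7,0,16,0],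
  [6,6,22,23,0,0,0,15,6,22,22,7,0,16,0,1],
  [6,22,23,0,0,0,15,6,22,22,7,0,16,0,1,26],
  [22,23,0,0,0,15,6,22,22,7,0,16,0,1,26,26],
  [23,0,0,0,15,6,22,22,7,0,16,0,1,26,26,10],
  [26,10,10,9,0,16,0,15,6,6,22,23,0,0,0,1],
  [10,10,9,0,16,0,15,6,6,22,23,0,0,0,1,26],
  [10,9,0,16,0,15,6,6,22,23,0,0,0,1,26,10],
  [9,0,16,0,15,6,6,22,23,0,0,0,1,26,10,10],
  [0,16,0,15,6,6,22,23,0,0,0,1,26,10,10,9],
  [16,0,15,6,6,22,23,0,0,0,1,26,10,10,9,0],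
  [0,15,6,6,22,23,0,0,0,1,26,10,10,9,0,16],
  [15,6,6,22,23,0,0,0,1,26,10,10,9,0,16,0],
  [6,6,22,23,0,0,0,1,26,10,10,9,0,16,0,31],
  [6,22,23,0,0,0,1,26,10,10,9,0,16,0,31,6],
  [22,23,0,0,0,1,26,10,10,9,0,16,0,31,6,6],
  [23,0,0,0,1,26,10,10,9,0,16,0,31,6,6,22],
  [26,10,10,9,0,16,0,31,6,6,22,7,0,0,0,31],
  [10,10,9,0,16,0,31,6,6,22,7,0,0,0,31,6],
  [10,9,0,16,0,31,6,6,22,7,0,0,0,31,6,22],
  [9,0,16,0,31,6,6,22,7,0,0,0,31,6,22,22],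
  [0,16,0,31,6,6,22,7,0,0,0,31,6,22,22,23],
  [16,0,31,6,6,22,7,0,0,0,31,6,22,22,23,0],
  [0,31,6,6,22,7,0,0,0,31,6,22,22,23,0,16],
  [31,6,6,22,7,0,0,0,31,6,22,22,23,0,16,0],
  [6,6,22,7,0,0,0,31,6,22,22,23,0,16,0,17],
  [6,22,7,0,0,0,31,6,22,22,23,0,16,0,17,26],
  [22,7,0,0,0,31,6,22,22,23,0,16,0,17,26,26],
  [7,0,0,0,31,6,22,22,23,0,16,0,17,26,26,10],
  [0,0,0,31,6,22,22,23,0,16,0,17,26,26,10,9],
  [0,0,31,6,22,22,23,0,16,0,17,26,26,10,9,0],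
  [0,31,6,22,22,23,0,16,0,17,26,26,10,9,0,0],
  [31,6,22,22,23,0,16,0,17,26,26,10,9,0,0,0],
  [6,22,22,23,0,16,0,17,26,26,10,9,0,0,0,17],
  [22,22,23,0,16,0,17,26,26,10,9,0,0,0,17,26],
  [22,23,0,16,0,17,26,26,10,9,0,0,0,17,26,10],
  [23,0,16,0,17,26,26,10,9,0,0,0,17,26,10,10],
  [26,26,10,9,0,0,0,17,26,10,10,25,0,16,0,15],
  [26,10,9,0,0,0,17,26,10,10,25,0,16,0,15,6],
  [10,9,0,0,0,17,26,10,10,25,0,16,0,15,6,6],
  [9,0,0,0,17,26,10,10,25,0,16,0,15,6,6,22],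
  [26,10,10,25,0,16,0,15,6,6,22,23,0,0,0,31],
  [10,10,25,0,16,0,15,6,6,22,23,0,0,0,31,6],
  [10,25,0,16,0,15,6,6,22,23,0,0,0,31,6,22],
  [25,0,16,0,15,6,6,22,23,0,0,0,31,6,22,22],
  [0,16,0,15,6,6,22,23,0,0,0,31,6,22,22,23],
  [16,0,15,6,6,22,23,0,0,0,31,6,22,22,23,0],
  [0,15,6,6,22,23,0,0,0,31,6,22,22,23,0,16],
  [15,6,6,22,23,0,0,0,31,6,22,22,23,0,16,0],
  [6,6,22,23,0,0,0,31,6,22,22,23,0,16,0,17],
  [6,22,23,0,0,0,31,6,22,22,23,0,16,0,17,26],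
  [22,23,0,0,0,31,6,22,22,23,0,16,0,17,26,26],
  [23,0,0,0,31,6,22,22,23,0,16,0,17,26,26,10],
  [6,22,22,23,0,16,0,17,26,26,10,9,0,0,0,15],
  [22,22,23,0,16,0,17,26,26,10,9,0,0,0,15,6],
  [22,23,0,16,0,17,26,26,10,9,0,0,0,15,6,22],
  [23,0,16,0,17,26,26,10,9,0,0,0,15,6,22,22],
  [0,16,0,17,26,26,10,9,0,0,0,15,6,22,22,7],
  [16,0,17,26,26,10,9,0,0,0,15,6,22,22,7,0],
  [0,17,26,26,10,9,0,0,0,15,6,22,22,7,0,16],
  [17,26,26,10,9,0,0,0,15,6,22,22,7,0,16,0],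
  [26,26,10,9,0,0,0,15,6,22,22,7,0,16,0,17],
  [26,10,9,0,0,0,15,6,22,22,7,0,16,0,17,26],
  [10,9,0,0,0,15,6,22,22,7,0,16,0,17,26,26],
  [9,0,0,0,15,6,22,22,7,0,16,0,17,26,26,10],
  [6,22,22,23,0,16,0,17,26,26,10,9,0,0,0,1],
  [22,22,23,0,16,0,17,26,26,10,9,0,0,0,1,26],
  [22,23,0,16,0,17,26,26,10,9,0,0,0,1,26,10],
  [23,0,16,0,17,26,26,10,9,0,0,0,1,26,10,10],
  [26,26,10,9,0,0,0,1,26,10,10,9,0,16,0,31],
  [26,10,9,0,0,0,1,26,10,10,9,0,16,0,31,6],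
  [10,9,0,0,0,1,26,10,10,9,0,16,0,31,6,6],
  [9,0,0,0,1,26,10,10,9,0,16,0,31,6,6,22],
  [6,22,22,7,0,16,0,1,26,26,10,25,0,0,0,31],
  [22,22,7,0,16,0,1,26,26,10,25,0,0,0,31,6],
  [22,7,0,16,0,1,26,26,10,25,0,0,0,31,6,22],
  [7,0,16,0,1,26,26,10,25,0,0,0,31,6,22,22],
  [0,16,0,1,26,26,10,25,0,0,0,31,6,22,22,23],
  [16,0,1,26,26,10,25,0,0,0,31,6,22,22,23,0],
  [0,1,26,26,10,25,0,0,0,31,6,22,22,23,0,16],
  [1,26,26,10,25,0,0,0,31,6,22,22,23,0,16,0],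
  [26,26,10,25,0,0,0,31,6,22,22,23,0,16,0,1],
  [26,10,25,0,0,0,31,6,22,22,23,0,16,0,1,26],
  [10,25,0,0,0,31,6,22,22,23,0,16,0,1,26,26],
  [25,0,0,0,31,6,22,22,23,0,16,0,1,26,26,10],
  [0,0,0,31,6,22,22,23,0,16,0,1,26,26,10,25],
  [0,0,31,6,22,22,23,0,16,0,1,26,26,10,25,0],
  [0,31,6,22,22,23,0,16,0,1,26,26,10,25,0,0],
  [31,6,22,22,23,0,16,0,1,26,26,10,25,0,0,0],
  [6,22,22,23,0,16,0,1,26,26,10,25,0,0,0,1],
  [22,22,23,0,16,0,1,26,26,10,25,0,0,0,1,26],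
  [22,23,0,16,0,1,26,26,10,25,0,0,0,1,26,10],
  [23,0,16,0,1,26,26,10,25,0,0,0,1,26,10,10],
  [0,16,0,1,26,26,10,25,0,0,0,1,26,10,10,9],
  [16,0,1,26,26,10,25,0,0,0,1,26,10,10,9,0],
  [0,1,26,26,10,25,0,0,0,1,26,10,10,9,0,16],
  [1,26,26,10,25,0,0,0,1,26,10,10,9,0,16,0],
  [26,26,10,25,0,0,0,1,26,10,10,9,0,16,0,15],
  [26,10,25,0,0,0,1,26,10,10,9,0,16,0,15,6],
  [10,25,0,0,0,1,26,10,10,9,0,16,0,15,6,6],
  [25,0,0,0,1,26,10,10,9,0,16,0,15,6,6,22],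
  [6,22,22,23,0,16,0,17,26,26,10,9,0,0,0,31],
  [22,22,23,0,16,0,17,26,26,10,9,0,0,0,31,6],
  [22,23,0,16,0,17,26,26,10,9,0,0,0,31,6,22],
  [23,0,16,0,17,26,26,10,9,0,0,0,31,6,22,22],
  [0,16,0,17,26,26,10,9,0,0,0,31,6,22,22,23],
  [16,0,17,26,26,10,9,0,0,0,31,6,22,22,23,0],
  [0,17,26,26,10,9,0,0,0,31,6,22,22,23,0,16],
  [17,26,26,10,9,0,0,0,31,6,22,22,23,0,16,0],
  [26,26,10,9,0,0,0,31,6,22,22,23,0,16,0,1],
  [26,10,9,0,0,0,31,6,22,22,23,0,16,0,1,26],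
  [10,9,0,0,0,31,6,22,22,23,0,16,0,1,26,26],
  [9,0,0,0,31,6,22,22,23,0,16,0,1,26,26,10],
  [26,10,10,9,0,16,0,15,6,6,22,23,0,0,0,15],
  [10,10,9,0,16,0,15,6,6,22,23,0,0,0,15,6],
  [10,9,0,16,0,15,6,6,22,23,0,0,0,15,6,22],
  [9,0,16,0,15,6,6,22,23,0,0,0,15,6,22,22],
  [6,6,22,23,0,0,0,15,6,22,22,7,0,16,0,17],
  [6,22,23,0,0,0,15,6,22,22,7,0,16,0,17,26],
  [22,23,0,0,0,15,6,22,22,7,0,16,0,17,26,26],
  [23,0,0,0,15,6,22,22,7,0,16,0,17,26,26,10],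
  [26,10,10,25,0,16,0,31,6,6,22,7,0,0,0,31],
  [10,10,25,0,16,0,31,6,6,22,7,0,0,0,31,6],
  [10,25,0,16,0,31,6,6,22,7,0,0,0,31,6,22],
  [25,0,16,0,31,6,6,22,7,0,0,0,31,6,22,22],
  [6,6,22,7,0,0,0,31,6,22,22,23,0,16,0,1],
  [6,22,7,0,0,0,31,6,22,22,23,0,16,0,1,26],
  [22,7,0,0,0,31,6,22,22,23,0,16,0,1,26,26],
  [7,0,0,0,31,6,22,22,23,0,16,0,1,26,26,10],
  [6,22,22,23,0,16,0,1,26,26,10,25,0,0,0,17],
  [22,22,23,0,16,0,1,26,26,10,25,0,0,0,17,26],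
  [22,23,0,16,0,1,26,26,10,25,0,0,0,17,26,10],
  [23,0,16,0,1,26,26,10,25,0,0,0,17,26,10,10],
  [0,16,0,1,26,26,10,25,0,0,0,17,26,10,10,25],
  [16,0,1,26,26,10,25,0,0,0,17,26,10,10,25,0],
  [0,1,26,26,10,25,0,0,0,17,26,10,10,25,0,16],
  [1,26,26,10,25,0,0,0,17,26,10,10,25,0,16,0],
  [26,26,10,25,0,0,0,17,26,10,10,25,0,16,0,31],
  [26,10,25,0,0,0,17,26,10,10,25,0,16,0,31,6],
  [10,25,0,0,0,17,26,10,10,25,0,16,0,31,6,6],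
  [25,0,0,0,17,26,10,10,25,0,16,0,31,6,6,22],
  [26,10,10,25,0,16,0,31,6,6,22,7,0,0,0,1],
  [10,10,25,0,16,0,31,6,6,22,7,0,0,0,1,26],
  [10,25,0,16,0,31,6,6,22,7,0,0,0,1,26,10],
  [25,0,16,0,31,6,6,22,7,0,0,0,1,26,10,10],
  [0,16,0,31,6,6,22,7,0,0,0,1,26,10,10,9],
  [16,0,31,6,6,22,7,0,0,0,1,26,10,10,9,0],
  [0,31,6,6,22,7,0,0,0,1,26,10,10,9,0,16],
  [31,6,6,22,7,0,0,0,1,26,10,10,9,0,16,0],
  [6,6,22,7,0,0,0,1,26,10,10,9,0,16,0,31],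
  [6,22,7,0,0,0,1,26,10,10,9,0,16,0,31,6],
  [22,7,0,0,0,1,26,10,10,9,0,16,0,31,6,6],
  [7,0,0,0,1,26,10,10,9,0,16,0,31,6,6,22],
  [26,10,10,9,0,16,0,15,6,6,22,23,0,0,0,31],
  [10,10,9,0,16,0,15,6,6,22,23,0,0,0,31,6],
  [10,9,0,16,0,15,6,6,22,23,0,0,0,31,6,22],
  [9,0,16,0,15,6,6,22,23,0,0,0,31,6,22,22],
  [6,6,22,23,0,0,0,31,6,22,22,23,0,16,0,1],
  [6,22,23,0,0,0,31,6,22,22,23,0,16,0,1,26],
  [22,23,0,0,0,31,6,22,22,23,0,16,0,1,26,26],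
  [23,0,0,0,31,6,22,22,23,0,16,0,1,26,26,10],
  [26,10,10,25,0,16,0,31,6,6,22,7,0,0,0,17],
  [10,10,25,0,16,0,31,6,6,22,7,0,0,0,17,26],
  [10,25,0,16,0,31,6,6,22,7,0,0,0,17,26,10],
  [25,0,16,0,31,6,6,22,7,0,0,0,17,26,10,10],
  [0,16,0,31,6,6,22,7,0,0,0,17,26,10,10,25],
  [16,0,31,6,6,22,7,0,0,0,17,26,10,10,25,0],
  [0,31,6,6,22,7,0,0,0,17,26,10,10,25,0,16],
  [31,6,6,22,7,0,0,0,17,26,10,10,25,0,16,0],
  [6,6,22,7,0,0,0,17,26,10,10,25,0,16,0,15],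
  [6,22,7,0,0,0,17,26,10,10,25,0,16,0,15,6],
  [22,7,0,0,0,17,26,10,10,25,0,16,0,15,6,6],
  [7,0,0,0,17,26,10,10,25,0,16,0,15,6,6,22],
  [6,22,22,7,0,16,0,1,26,26,10,25,0,0,0,1],
  [22,22,7,0,16,0,1,26,26,10,25,0,0,0,1,26],
  [22,7,0,16,0,1,26,26,10,25,0,0,0,1,26,10],
  [7,0,16,0,1,26,26,10,25,0,0,0,1,26,10,10],
  [26,26,10,25,0,0,0,1,26,10,10,9,0,16,0,31],
  [26,10,25,0,0,0,1,26,10,10,9,0,16,0,31,6],
  [10,25,0,0,0,1,26,10,10,9,0,16,0,31,6,6],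
  [25,0,0,0,1,26,10,10,9,0,16,0,31,6,6,22],
  [6,22,22,7,0,16,0,1,26,26,10,25,0,0,0,17],
  [22,22,7,0,16,0,1,26,26,10,25,0,0,0,17,26],
  [22,7,0,16,0,1,26,26,10,25,0,0,0,17,26,10],
  [7,0,16,0,1,26,26,10,25,0,0,0,17,26,10,10],
  [26,26,10,25,0,0,0,17,26,10,10,25,0,16,0,15],
  [26,10,25,0,0,0,17,26,10,10,25,0,16,0,15,6],
  [10,25,0,0,0,17,26,10,10,25,0,16,0,15,6,6],
  [25,0,0,0,17,26,10,10,25,0,16,0,15,6,6,22]]

theorem S_ok : S.all (fun w => S.contains (T 0 w) && S.contains (T 1 w) &&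
    ((difN 15 w).getD 0 0 % 32 != 0)) = true := by
  decide +kernel

theorem S_start : [0,0,0,0,0,0,0,0,0,0,0,0,0,0,0,1] ∈ S := by
  unfold S
  exact List.mem_cons_self

noncomputable def Qp : R[X] := 1 + 26 * X + 16 * X ^ 2 + 6 * X ^ 3 + 31 * X ^ 4

noncomputable def G (N : ℕ) : R[X] := ∏ i ∈ Finset.range N, expand R (2 ^ i) Qp

theorem G_succ (N : ℕ) : G (N + 1) = Qp * expand R 2 (G N) := by
  unfold G
  rw [Finset.prod_range_succ', map_prod, mul_comm]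
  simp only [pow_zero, expand_one, expand_expand, pow_succ']

noncomputable def H (N : ℕ) : R[X] := X ^ 15 * G N

theorem H_succ (N : ℕ) : X ^ 15 * H (N + 1) = Qp * expand R 2 (H N) := by
  unfold H
  rw [G_succ, map_mul, map_pow, expand_X]
  ring

theorem coeff_Qp_mul (A : R[X]) (s : ℕ) : (Qp * A).coeff (s + 4) =
    A.coeff (s + 4) + 26 * A.coeff (s + 3) + 16 * A.coeff (s + 2) + 6 * A.coeff (s + 1)
      + 31 * A.coeff s := by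
  have h : Qp * A = A + C 26 * (X ^ 1 * A) + C 16 * (X ^ 2 * A) + C 6 * (X ^ 3 * A)
      + C 31 * (X ^ 4 * A) := by
    unfold Qp
    simp only [map_ofNat]
    ring
  have h1 : (X ^ 1 * A).coeff (s + 4) = A.coeff (s + 3) := coeff_X_pow_mul A 1 (s + 3)
  have h2 : (X ^ 2 * A).coeff (s + 4) = A.coeff (s + 2) := coeff_X_pow_mul A 2 (s + 2)
  have h3 : (X ^ 3 * A).coeff (s + 4) = A.coeff (s + 1) := coeff_X_pow_mul A 3 (s + 1)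
  have h4 : (X ^ 4 * A).coeff (s + 4) = A.coeff s := coeff_X_pow_mul A 4 s
  rw [h]
  simp only [coeff_add, coeff_C_mul, h1, h2, h3, h4]

/-- the window of `p` at `n` is `w` -/
def Win (p : R[X]) (n : ℕ) (w : List ℕ) : Prop := ∀ j < 16, p.coeff (n + j) = (w.getD j 0 : ℕ)

theorem expand_win {p : R[X]} {n : ℕ} {w : List ℕ} (h : Win p n w) (v : ℕ) (hv : v < 32) :
    (expand R 2 p).coeff (2 * n + v) = (D w v : ℕ) := by
  rw [coeff_expand (by norm_num)]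
  unfold D
  by_cases hv2 : v % 2 = 0
  · rw [if_pos (by omega), if_pos hv2, show (2 * n + v) / 2 = n + v / 2 by omega]
    exact h _ (by omega)
  · rw [if_neg (by omega), if_neg hv2]
    simp

theorem cast_mod (a : ℕ) : ((a % 32 : ℕ) : R) = a := ZMod.natCast_mod a 32

theorem getD_map_range (f : ℕ → ℕ) (j : ℕ) (hj : j < 16) :
    ((List.range 16).map f).getD j 0 = f j := by
  rw [List.getD_eq_getElem _ _ (by simpa using hj)]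
  simp

theorem win_step {N n : ℕ} {w : List ℕ} (h : Win (H N) n w) (e : ℕ) (he : e < 2) :
    Win (H (N + 1)) (2 * n + e) (T e w) := by
  intro j hj
  have h1 : (H (N + 1)).coeff (2 * n + e + j) = (X ^ 15 * H (N + 1)).coeff (2 * n + e + j + 15) :=
    (coeff_X_pow_mul _ 15 _).symm
  rw [h1, H_succ, show 2 * n + e + j + 15 = (2 * n + (e + j + 11)) + 4 by ring, coeff_Qp_mul]
  unfold T
  rw [getD_map_range _ _ hj, cast_mod]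
  rw [show 2 * n + (e + j + 11) + 4 = 2 * n + (e + j + 15) by ring,
    show 2 * n + (e + j + 11) + 3 = 2 * n + (e + j + 14) by ring,
    show 2 * n + (e + j + 11) + 2 = 2 * n + (e + j + 13) by ring,
    show 2 * n + (e + j + 11) + 1 = 2 * n + (e + j + 12) by ring,
    expand_win h _ (by omega), expand_win h _ (by omega), expand_win h _ (by omega),
    expand_win h _ (by omega), expand_win h _ (by omega)]
  push_cast
  ring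

theorem inv (N : ℕ) : ∀ n < 2 ^ N, ∃ w ∈ S, Win (H N) n w := by
  induction N with
  | zero =>
    intro n hn
    obtain rfl : n = 0 := by simpa using hn
    refine ⟨_, S_start, ?_⟩
    intro j hj
    unfold H G
    simp only [Finset.range_zero, Finset.prod_empty, mul_one, zero_add, coeff_X_pow]
    interval_cases j <;> simp
  | succ N ih =>
    intro n hn
    obtain ⟨w, hw, hwin⟩ := ih (n / 2) (by rw [pow_succ] at hn; omega)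
    have hok := List.all_eq_true.1 S_ok w hw
    simp only [Bool.and_eq_true, List.contains_iff_mem] at hok
    have hs := win_step hwin (n % 2) (by omega)
    rw [show 2 * (n / 2) + n % 2 = n by omega] at hs
    rcases Nat.mod_two_eq_zero_or_one n with h | h
    · rw [h] at hs; exact ⟨_, hok.1.1, hs⟩
    · rw [h] at hs; exact ⟨_, hok.1.2, hs⟩

theorem dif_win {p : R[X]} {n : ℕ} {w : List ℕ} (h : Win p n w) (k : ℕ) :
    ∀ j, j + k < 16 → ((1 - X) ^ k * p).coeff (n + k + j) = (((difN k w).getD j 0 : ℕ) : R) := by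
  induction k with
  | zero => intro j hj; simpa [difN] using h j (by omega)
  | succ k ih =>
    intro j hj
    have e1 : (1 - X) ^ (k + 1) * p = (1 - X) ^ k * p - X * ((1 - X) ^ k * p) := by ring
    rw [e1, coeff_sub, show n + (k + 1) + j = (n + k + j) + 1 by ring, coeff_X_mul,
      ih j (by omega), show n + k + j + 1 = n + k + (j + 1) by ring, ih (j + 1) (by omega)]
    simp only [difN]
    unfold dif
    rw [getD_map_range _ _ (by omega), cast_mod]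
    push_cast
    have h32 : (32 : R) = 0 := by decide
    linear_combination (-((difN k w).getD j 0 : R)) * h32

theorem coeff_ne (N n : ℕ) (hn : n < 2 ^ N) : ((1 - X) ^ 15 * G N).coeff n ≠ 0 := by
  obtain ⟨w, hw, hwin⟩ := inv N n hn
  have hok := List.all_eq_true.1 S_ok w hw
  simp only [Bool.and_eq_true, bne_iff_ne, ne_eq] at hok
  have h1 := dif_win hwin 15 0 (by omega)
  have h2 : (1 - X) ^ 15 * H N = X ^ 15 * ((1 - X) ^ 15 * G N) := by unfold H; ring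
  rw [h2, add_zero, coeff_X_pow_mul] at h1
  rw [h1, Ne, ZMod.natCast_eq_zero_iff]
  intro hd
  exact hok.2 (Nat.mod_eq_zero_of_dvd hd)

noncomputable def E (i : ℕ) : PowerSeries R :=
  PowerSeries.mk (fun j : ℕ => if 2 ^ i ∣ j then (1 : R) else 0)

theorem E_mul (i : ℕ) : E i * (1 - PowerSeries.X ^ (2 ^ i)) = 1 := by
  ext n
  rw [mul_sub, mul_one, map_sub, PowerSeries.coeff_mul_X_pow', PowerSeries.coeff_one]
  unfold E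
  simp only [PowerSeries.coeff_mk]
  have hpos : 0 < 2 ^ i := by positivity
  by_cases hn : n = 0
  · subst hn
    rw [if_pos (dvd_zero _), if_neg (by omega), if_pos rfl, sub_zero]
  · rw [if_neg hn]
    by_cases hle : 2 ^ i ≤ n
    · rw [if_pos hle]
      by_cases hd : 2 ^ i ∣ n
      · rw [if_pos hd, if_pos ((Nat.dvd_sub_iff_left hle dvd_rfl).2 hd), sub_self]
      · rw [if_neg hd, if_neg (fun h => hd ((Nat.dvd_sub_iff_left hle dvd_rfl).1 h)), sub_self]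
    · rw [if_neg hle, if_neg (fun h => hle (Nat.le_of_dvd (by omega) h)), sub_self]

theorem key {A : Type*} [CommRing A] (h32 : (32 : A) = 0) (y : A) :
    (1 + y) ^ 15 = (1 - y) ^ 11 * (1 + 26 * y + 16 * y ^ 2 + 6 * y ^ 3 + 31 * y ^ 4) := by
  linear_combination (10 * y ^ 2 - 20 * y ^ 3 + 140 * y ^ 4 - 77 * y ^ 5 + 330 * y ^ 6
    + 165 * y ^ 7 + 550 * y ^ 9 - 330 * y ^ 10 + 350 * y ^ 11 - 140 * y ^ 12 + 55 * y ^ 13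
    - 10 * y ^ 14 + y ^ 15) * h32

theorem telescope (N : ℕ) : (((1 - X) ^ 15 * G N : R[X]) : PowerSeries R) =
    (∏ i ∈ Finset.range N, E i) ^ 11 * (1 - PowerSeries.X ^ (2 ^ N)) ^ 15 := by
  induction N with
  | zero => simp [G]
  | succ N ih =>
    have h32 : (32 : PowerSeries R) = 0 := by
      have : (32 : PowerSeries R) = PowerSeries.C (32 : R) := (map_ofNat _ 32).symm
      rw [this, show (32 : R) = 0 by decide, map_zero]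
    have hG : (1 - X) ^ 15 * G (N + 1) = ((1 - X) ^ 15 * G N) * expand R (2 ^ N) Qp := by
      unfold G
      rw [Finset.prod_range_succ, mul_assoc]
    have hQ : ((expand R (2 ^ N) Qp : R[X]) : PowerSeries R) =
        1 + 26 * PowerSeries.X ^ (2 ^ N) + 16 * (PowerSeries.X ^ (2 ^ N)) ^ 2
          + 6 * (PowerSeries.X ^ (2 ^ N)) ^ 3 + 31 * (PowerSeries.X ^ (2 ^ N)) ^ 4 := by
      unfold Qp
      simp only [map_add, map_mul, map_pow, expand_X, map_one, map_ofNat]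
      rw [← Polynomial.coeToPowerSeries.ringHom_apply]
      simp only [map_add, map_mul, map_pow, map_one, map_ofNat,
        Polynomial.coeToPowerSeries.ringHom_apply, Polynomial.coe_X]
    rw [hG, Polynomial.coe_mul, ih, hQ, Finset.prod_range_succ]
    have hk := key h32 (PowerSeries.X ^ (2 ^ N) : PowerSeries R)
    have hE := E_mul N
    set y : PowerSeries R := PowerSeries.X ^ (2 ^ N) with hy
    have h2 : (PowerSeries.X : PowerSeries R) ^ (2 ^ (N + 1)) = y ^ 2 := by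
      rw [hy, ← pow_mul, pow_succ]
    rw [h2, show (1 - y ^ 2) = (1 - y) * (1 + y) by ring, mul_pow, mul_pow, hk]
    have hE11 : E N ^ 11 * (1 - y) ^ 11 = 1 := by rw [← mul_pow, hE, one_pow]
    linear_combination (-((∏ i ∈ Finset.range N, E i) ^ 11 * (1 - y) ^ 15 *
      (1 + 26 * y + 16 * y ^ 2 + 6 * y ^ 3 + 31 * y ^ 4))) * hE11

theorem coeff_E_ne (N n : ℕ) (hn : n < 2 ^ N) :
    PowerSeries.coeff n ((∏ i ∈ Finset.range N, E i) ^ 11) ≠ 0 := by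
  have h1 := coeff_ne N n hn
  rw [← Polynomial.coeff_coe, telescope] at h1
  have hd : (PowerSeries.X : PowerSeries R) ^ (2 ^ N) ∣
      (∏ i ∈ Finset.range N, E i) ^ 11 * (1 - PowerSeries.X ^ (2 ^ N)) ^ 15
        - (∏ i ∈ Finset.range N, E i) ^ 11 := by
    have h := sub_dvd_pow_sub_pow (1 - (PowerSeries.X : PowerSeries R) ^ (2 ^ N)) 1 15
    rw [sub_sub_cancel_left, neg_dvd, one_pow] at h
    rw [← mul_sub_one]
    exact h.mul_left _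
  have h2 := PowerSeries.X_pow_dvd_iff.1 hd n hn
  rw [map_sub, sub_eq_zero] at h2
  rwa [h2] at h1

theorem not_dvd (n : ℕ) : ¬ 32 ∣ PowerSeries.coeff n ((∏ i ∈ Finset.range (n + 1),
    PowerSeries.mk (fun j : ℕ => if 2 ^ i ∣ j then (1 : ℕ) else 0)) ^ 11) := by
  intro h
  apply coeff_E_ne (n + 1) n (lt_trans (Nat.lt_succ_self n) (Nat.lt_two_pow_self))
  have hm : PowerSeries.map (Nat.castRingHom R) ((∏ i ∈ Finset.range (n + 1),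
      PowerSeries.mk (fun j : ℕ => if 2 ^ i ∣ j then (1 : ℕ) else 0)) ^ 11)
      = (∏ i ∈ Finset.range (n + 1), E i) ^ 11 := by
    rw [map_pow, map_prod]
    congr 1
    refine Finset.prod_congr rfl fun i _ => ?_
    ext j
    unfold E
    simp only [PowerSeries.coeff_map, PowerSeries.coeff_mk]
    split_ifs <;> simp
  rw [← hm, PowerSeries.coeff_map]
  exact (ZMod.natCast_eq_zero_iff _ 32).2 h

end Pool.Agent.H339Z.BinPart
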